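import Pool.Agent.Helper13.TW.Pid

/-!
# Conjugation of a matrix algebra into matrices integral at a set of primes
-/

set_option autoImplicit false

open IsDedekindDomain

namespace Helper13.TW

variable {O : Type} [CommRing O] [IsDedekindDomain O] (S : Set (HeightOneSpectrum O))
  (L : Type) [Field L] [Algebra O L] [IsFractionRing O L]

/-- the elements of `L` integral at `S` -/
noncomputable def BS : Subalgebra O L := Localization.subalgebra.ofField L (MS S) (MS_le S)

instance : IsLocalization (MS S) (BS S L) := by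
  unfold BS
  infer_instance

variable {S L}

theorem mem_BS_iff [Finite (ClassGroup O)] (x : L) :
    x ∈ BS S L ↔ ∀ p ∈ S, p.valuation L x ≤ 1 := by
  constructor
  · rintro ⟨a, s, hs, rfl⟩ p hp
    rw [map_mul, map_inv₀, (HeightOneSpectrum.valuation_eq_one_iff_notMem p).2 (hs.2 p hp), inv_one,
      mul_one]
    exact p.valuation_le_one a
  · intro hx
    obtain ⟨d, hd, X, h⟩ := exists_den S x hx
    refine ⟨X, d, hd, ?_⟩
    have hd0 : algebraMap O L d ≠ 0 := by
      rw [Ne, FaithfulSMul.algebraMap_eq_zero_iff]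
      exact hd.1
    rw [← h]
    field_simp

/-- **Conjugation.** Finitely many matrices, one of them the identity, whose products are
combinations with coefficients integral at `S`, have a common conjugate with entries integral at
`S`. -/
theorem exists_conj [Finite (ClassGroup O)]
    (hS : ∀ c : ClassGroup O, ∃ I : nonZeroDivisors (Ideal O), ClassGroup.mk0 I = c ∧
      ∀ p ∈ S, ¬ (I : Ideal O) ≤ p.asIdeal)
    {m : ℕ} {ι : Type} [Fintype ι] (X : ι → Matrix (Fin m) (Fin m) L) (a0 : ι) (h0 : X a0 = 1)
    (s : ι → ι → ι → L) (hs : ∀ a b, X a * X b = ∑ c, s a b c • X c)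
    (hint : ∀ a b c, ∀ p ∈ S, p.valuation L (s a b c) ≤ 1) :
    ∃ g : (Matrix (Fin m) (Fin m) L)ˣ, ∀ a i j, ∀ p ∈ S,
      p.valuation L (((g : Matrix (Fin m) (Fin m) L) * X a *
        ((g⁻¹ : (Matrix (Fin m) (Fin m) L)ˣ) : Matrix (Fin m) (Fin m) L)) i j) ≤ 1 := by
  classical
  have hPID : IsPrincipalIdealRing (BS S L) := isPrincipal S hS (BS S L)
  -- the lattice
  let P : Submodule (BS S L) (Fin m → L) :=
    Submodule.span (BS S L) (Set.range fun z : ι × Fin m => (X z.1).mulVec (Pi.single z.2 1))
  have hmem : ∀ a j, (X a).mulVec (Pi.single j 1) ∈ P := fun a j =>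
    Submodule.subset_span ⟨(a, j), rfl⟩
  have hlat : Submodule.IsLattice L P := by
    refine ⟨Submodule.fg_span (Set.finite_range _), ?_⟩
    rw [eq_top_iff]
    intro v _
    have h1 : v = ∑ j, v j • (X a0).mulVec (Pi.single j 1) := by
      rw [h0]
      simp only [Matrix.one_mulVec]
      ext i
      simp [Finset.sum_apply, Pi.single_apply]
    rw [h1]
    exact Submodule.sum_mem _ fun j _ => Submodule.smul_mem _ _ (Submodule.subset_span (hmem a0 j))
  have hfree : Module.Free (BS S L) P := Submodule.IsLattice.free L P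
  have hrank : Module.finrank (BS S L) P = m := by
    rw [Submodule.IsLattice.finrank_of_pi L P, Fintype.card_fin]
  let b : Module.Basis (Fin m) (BS S L) P := Module.finBasisOfFinrankEq (BS S L) P hrank
  let bL : Module.Basis (Fin m) L (Fin m → L) := b.extendOfIsLattice L
  -- stability
  have hstab : ∀ a, ∀ v ∈ P, (X a).mulVec v ∈ P := by
    intro a v hv
    induction hv using Submodule.span_induction with
    | mem v hv =>
      obtain ⟨⟨c, j⟩, rfl⟩ := hv
      show (X a).mulVec ((X c).mulVec (Pi.single j 1)) ∈ P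
      rw [Matrix.mulVec_mulVec, hs, Matrix.sum_mulVec]
      refine Submodule.sum_mem _ fun e _ => ?_
      rw [Matrix.smul_mulVec]
      have h2 : s a c e • (X e).mulVec (Pi.single j 1) =
          (⟨s a c e, (mem_BS_iff _).2 (hint a c e)⟩ : BS S L) • (X e).mulVec (Pi.single j 1) := rfl
      rw [h2]
      exact Submodule.smul_mem _ _ (hmem e j)
    | zero =>
      rw [Matrix.mulVec_zero]
      exact P.zero_mem
    | add v w _ _ hv hw =>
      rw [Matrix.mulVec_add]
      exact P.add_mem hv hw
    | smul c v _ hv =>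
      have h2 : (X a).mulVec (c • v) = c • (X a).mulVec v := by
        have h3 : c • v = (c : L) • v := rfl
        rw [h3, Matrix.mulVec_smul]
        rfl
      rw [h2]
      exact P.smul_mem c hv
  -- the matrices in the basis
  let e : Module.Basis (Fin m) L (Fin m → L) := Pi.basisFun L (Fin m)
  have hinv1 : bL.toMatrix e * e.toMatrix bL = 1 := Module.Basis.toMatrix_mul_toMatrix_flip bL e
  have hinv2 : e.toMatrix bL * bL.toMatrix e = 1 := Module.Basis.toMatrix_mul_toMatrix_flip e bL
  refine ⟨⟨bL.toMatrix e, e.toMatrix bL, hinv1, hinv2⟩, fun a i j p hp => ?_⟩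
  have h3 : bL.toMatrix e * X a * e.toMatrix bL =
      LinearMap.toMatrix bL bL (Matrix.toLin' (X a)) := by
    have h4 := basis_toMatrix_mul_linearMap_toMatrix_mul_basis_toMatrix bL e bL e
      (Matrix.toLin' (X a))
    rw [← h4]
    congr 2
    exact (LinearMap.toMatrix'_toLin' (X a)).symm
  show p.valuation L ((bL.toMatrix e * X a * e.toMatrix bL) i j) ≤ 1
  rw [h3, LinearMap.toMatrix_apply]
  have h5 : (X a).mulVec (bL j) ∈ P := by
    refine hstab a _ ?_
    rw [Module.Basis.extendOfIsLattice_apply]
    exact (b j).2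
  have h6 : Matrix.toLin' (X a) (bL j) = ∑ c, (b.repr ⟨_, h5⟩ c : L) • bL c := by
    have h7 := b.sum_repr ⟨_, h5⟩
    have h8 := congrArg (fun z : P => (z : Fin m → L)) h7
    simp only [Submodule.coe_sum, Submodule.coe_smul_of_tower] at h8
    rw [Matrix.toLin'_apply]
    refine h8.symm.trans ?_
    refine Finset.sum_congr rfl fun c _ => ?_
    have h10 : bL c = (b c : Fin m → L) := Module.Basis.extendOfIsLattice_apply L b c
    exact congrArg (fun z : Fin m → L => (b.repr ⟨_, h5⟩ c : L) • z) h10.symm
  rw [h6, map_sum, Finset.sum_apply']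
  have h9 : ∑ c, (bL.repr ((b.repr ⟨_, h5⟩ c : L) • bL c)) i = (b.repr ⟨_, h5⟩ i : L) := by
    simp [Finsupp.single_apply]
  rw [h9]
  exact (mem_BS_iff _).1 (b.repr ⟨_, h5⟩ i).2 p hp

end Helper13.TW
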