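import Mathlib

/-!
# Elements integral at a set of primes of a Dedekind domain with finite class group

`S` is a set of primes such that every ideal class contains an ideal prime to all members of `S`.
The ring `B` of fractions whose denominators are units at `S` is a principal ideal ring, and it
consists of the elements integral at `S`.
-/

set_option autoImplicit false

open IsDedekindDomain

namespace Helper13.TW

variable {O : Type*} [CommRing O] [IsDedekindDomain O]

/-- nonzero elements which are units at all primes in `S` -/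
def MS (S : Set (HeightOneSpectrum O)) : Submonoid O where
  carrier := {d | d ≠ 0 ∧ ∀ p ∈ S, d ∉ p.asIdeal}
  one_mem' := ⟨one_ne_zero, fun p _ h => p.isPrime.ne_top ((Ideal.eq_top_iff_one _).2 h)⟩
  mul_mem' := fun ha hb => ⟨mul_ne_zero ha.1 hb.1, fun p hp h =>
    (p.isPrime.mem_or_mem h).elim (ha.2 p hp) (hb.2 p hp)⟩

lemma mem_MS {S : Set (HeightOneSpectrum O)} {d : O} :
    d ∈ MS S ↔ d ≠ 0 ∧ ∀ p ∈ S, d ∉ p.asIdeal := Iff.rfl

lemma MS_le (S : Set (HeightOneSpectrum O)) : MS S ≤ nonZeroDivisors O := fun _ hd =>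
  mem_nonZeroDivisors_of_ne_zero hd.1

/-- an ideal prime to `S` contains an element prime to `S` -/
theorem exists_mem_MS [Finite (ClassGroup O)] (S : Set (HeightOneSpectrum O)) {I : Ideal O}
    (hI0 : I ≠ ⊥) (hI : ∀ p ∈ S, ¬ I ≤ p.asIdeal) : ∃ i ∈ I, i ∈ MS S := by
  classical
  have := Fintype.ofFinite (ClassGroup O)
  obtain ⟨h, hh⟩ : ∃ h : ℕ, h = Fintype.card (ClassGroup O) := ⟨_, rfl⟩
  have hh0 : h ≠ 0 := by rw [hh]; exact Fintype.card_ne_zero
  obtain ⟨I', hI'⟩ : ∃ I' : nonZeroDivisors (Ideal O), (I' : Ideal O) = I :=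
    ⟨⟨I, mem_nonZeroDivisors_of_ne_zero hI0⟩, rfl⟩
  have h1 : ClassGroup.mk0 (I' ^ h) = 1 := by
    rw [map_pow, hh]
    exact pow_card_eq_one
  rw [ClassGroup.mk0_eq_one_iff (I' ^ h).2] at h1
  have h2 : ((I' ^ h : nonZeroDivisors (Ideal O)) : Ideal O) = I ^ h := by
    rw [SubmonoidClass.coe_pow, hI']
  rw [h2] at h1
  obtain ⟨i, hi⟩ := h1.principal
  have hi' : I ^ h = Ideal.span {i} := hi
  have him : i ∈ I ^ h := by rw [hi']; exact Ideal.mem_span_singleton_self i
  refine ⟨i, Ideal.pow_le_self hh0 him, ?_, fun p hp hip => hI p hp ?_⟩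
  · rintro rfl
    have h3 : I ^ h = ⊥ := by rw [hi']; simp
    exact pow_ne_zero h hI0 h3
  · refine p.isPrime.pow_le_iff hh0 |>.1 ?_
    rw [hi', Ideal.span_singleton_le_iff_mem]
    exact hip

/-- the ring of fractions is a principal ideal ring -/
theorem isPrincipal [Finite (ClassGroup O)] (S : Set (HeightOneSpectrum O))
    (hS : ∀ c : ClassGroup O, ∃ I : nonZeroDivisors (Ideal O), ClassGroup.mk0 I = c ∧
      ∀ p ∈ S, ¬ (I : Ideal O) ≤ p.asIdeal)
    (B : Type*) [CommRing B] [Algebra O B] [IsLocalization (MS S) B] :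
    IsPrincipalIdealRing B := by
  refine ⟨fun J => ?_⟩
  obtain ⟨A, hA⟩ : ∃ A : Ideal O, A = J.comap (algebraMap O B) := ⟨_, rfl⟩
  have hJ : A.map (algebraMap O B) = J := by
    rw [hA]
    exact IsLocalization.map_under (MS S) B J
  rw [← hJ]
  by_cases hA0 : A = ⊥
  · rw [hA0, Ideal.map_bot]
    exact ⟨0, by simp⟩
  obtain ⟨I, hIc, hI⟩ := hS (ClassGroup.mk0 ⟨A, mem_nonZeroDivisors_of_ne_zero hA0⟩)⁻¹
  obtain ⟨i, hi, hiM⟩ := exists_mem_MS S (nonZeroDivisors.ne_zero I.2) hI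
  have h1 : ClassGroup.mk0 (⟨A, mem_nonZeroDivisors_of_ne_zero hA0⟩ * I) = 1 := by
    rw [map_mul, hIc, mul_inv_cancel]
  rw [ClassGroup.mk0_eq_one_iff
    (⟨A, mem_nonZeroDivisors_of_ne_zero hA0⟩ * I : nonZeroDivisors (Ideal O)).2] at h1
  obtain ⟨γ, hγ⟩ := h1.principal
  have hγ' : A * (I : Ideal O) = Ideal.span {γ} := hγ
  have hiu : IsUnit (algebraMap O B i) := IsLocalization.map_units B (⟨i, hiM⟩ : MS S)
  refine ⟨algebraMap O B γ, ?_⟩
  show A.map (algebraMap O B) = Ideal.span {algebraMap O B γ}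
  apply le_antisymm
  · rw [Ideal.map_le_iff_le_comap]
    intro a ha
    have h2 : a * i ∈ A * (I : Ideal O) := Ideal.mul_mem_mul ha hi
    rw [hγ', Ideal.mem_span_singleton'] at h2
    obtain ⟨u, hu⟩ := h2
    rw [Ideal.mem_comap, Ideal.mem_span_singleton']
    obtain ⟨v, hv⟩ := hiu
    refine ⟨algebraMap O B u * ↑v⁻¹, ?_⟩
    have h3 : algebraMap O B u * algebraMap O B γ = algebraMap O B a * v := by
      rw [← map_mul, hu, map_mul, hv]
    calc algebraMap O B u * ↑v⁻¹ * algebraMap O B γ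
        = algebraMap O B u * algebraMap O B γ * ↑v⁻¹ := by ring
      _ = algebraMap O B a := by rw [h3, mul_assoc, Units.mul_inv, mul_one]
  · rw [Ideal.span_singleton_le_iff_mem]
    refine Ideal.mem_map_of_mem _ ?_
    have h2 : γ ∈ A * (I : Ideal O) := by rw [hγ']; exact Ideal.mem_span_singleton_self γ
    exact Ideal.mul_le_left h2

/-- elements integral at `S` have denominators prime to `S` -/
theorem exists_den [Finite (ClassGroup O)] (S : Set (HeightOneSpectrum O))
    {L : Type*} [Field L] [Algebra O L] [IsFractionRing O L] (x : L)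
    (hx : ∀ p ∈ S, p.valuation L x ≤ 1) :
    ∃ d ∈ MS S, ∃ X : O, algebraMap O L d * x = algebraMap O L X := by
  obtain ⟨D, hD⟩ : ∃ D : Ideal O, ∀ d, d ∈ D ↔ ∃ X : O, algebraMap O L d * x = algebraMap O L X :=
    ⟨{ carrier := {d | ∃ X : O, algebraMap O L d * x = algebraMap O L X}
       add_mem' := by
        rintro a b ⟨X, hX⟩ ⟨Y, hY⟩
        exact ⟨X + Y, by rw [map_add, add_mul, hX, hY, map_add]⟩
       zero_mem' := ⟨0, by rw [map_zero, zero_mul]⟩
       smul_mem' := by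
        rintro c a ⟨X, hX⟩
        exact ⟨c * X, by rw [smul_eq_mul, map_mul, mul_assoc, hX, map_mul]⟩ }, fun _ => Iff.rfl⟩
  have hD0 : D ≠ ⊥ := by
    obtain ⟨⟨a, b⟩, hab⟩ := IsLocalization.surj (nonZeroDivisors O) x
    intro h0
    have h1 : (b : O) ∈ D := (hD _).2 ⟨a, by rw [mul_comm]; exact hab⟩
    rw [h0, Ideal.mem_bot] at h1
    exact nonZeroDivisors.ne_zero b.2 h1
  obtain ⟨d, hd, hdM⟩ := exists_mem_MS S hD0 fun p hp hle => by
    obtain ⟨n, d, h1⟩ := p.exists_primeCompl_mul_eq_of_integer x (hx p hp)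
    exact d.2 (hle ((hD _).2 ⟨n, by rw [mul_comm]; exact h1⟩))
  exact ⟨d, hdM, (hD d).1 hd⟩

end Helper13.TW
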